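import Pool.Agent.LCK.Stmts

/-!
# The exact classification of five link chains (MP_e0fe99_lc): statements of the rows (table lc5)

THEOREM. An open chain with five links of lengths `l 0, …, l 4` is locked if and only if
`l 1 + l 2 + l 3 ≤ min (l 0) (l 4)`.

Vertices `v 0, …, v 5`. Affine coordinates `(x, y, z)` of a point: `v 1 + x A + y B + z P` with
`A = v 3 - v 1`, `B = v 2 - v 1`, `P = v 4 - v 1`: so `v 1 = (0,0,0)`, `v 2 = (0,1,0)`, `v 3 = (1,0,0)`,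
`v 4 = (0,0,1)`; link 1 (from `v 1` to `v 2`) is `{(0,b,0), 0 ≤ b ≤ 1}`, link 2 is `{(1-b,b,0)}`, link 3 is
`{(1-b,0,b)}`. LINKS ARE NUMBERED 0, …, 4: link `k` goes from `v k` to `v (k+1)` and has length `l k`.
-/

set_option autoImplicit false

open Topology

namespace Pool.Agent.LC5

open Pool.Agent.LCK

/-- the determinant of three vectors -/
def det3 (a b c : E3) : ℝ :=
  a 0 * (b 1 * c 2 - b 2 * c 1) - a 1 * (b 0 * c 2 - b 2 * c 0) + a 2 * (b 0 * c 1 - b 1 * c 0)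

/-- the determinant of `A, B, P` -/
def dt (v : Fin 6 → E3) : ℝ := det3 (v 3 - v 1) (v 2 - v 1) (v 4 - v 1)

/-- the point with coordinates `p` -/
def pt (v : Fin 6 → E3) (p : ℝ × ℝ × ℝ) : E3 :=
  v 1 + (p.1 • (v 3 - v 1) + p.2.1 • (v 2 - v 1) + p.2.2 • (v 4 - v 1))

/-- the coordinates of the point `X` (Cramer) -/
noncomputable def crd (v : Fin 6 → E3) (X : E3) : ℝ × ℝ × ℝ :=
  (det3 (X - v 1) (v 2 - v 1) (v 4 - v 1) / dt v,
   det3 (v 3 - v 1) (X - v 1) (v 4 - v 1) / dt v,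
   det3 (v 3 - v 1) (v 2 - v 1) (X - v 1) / dt v)

/-- the two segments are disjoint -/
def Dj (a b c d : E3) : Prop := segment ℝ a b ∩ segment ℝ c d = ∅

/-- the two segments share exactly the vertex `b` -/
def Hi (a b c : E3) : Prop := segment ℝ a b ∩ segment ℝ b c = {b}

/-! ## Tools -/

/-- CRD. Cramer's rule. Proof: the three components of `pt v (crd v X) = X` are polynomial identities
after multiplication by `dt v` (`EuclideanSpace` ext, `Fin` cases, `field_simp`, `ring`); `det3` is linear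
in each argument and vanishes if two arguments are equal. Continuity: quotients of polynomials in the
components, the denominator is not zero. -/
def CRDStmt : Prop := ∀ v : Fin 6 → E3, dt v ≠ 0 →
  (∀ X, pt v (crd v X) = X) ∧ (∀ p, crd v (pt v p) = p) ∧
  (∀ X, ContinuousAt (fun q : (Fin 6 → E3) × E3 => crd q.1 q.2) (v, X))

/-- DJC. Disjointness in coordinates (uses CRD for the injectivity of `pt v`). Proof: `pt v` is affine,
`segment ℝ (pt v p) (pt v q)` is the set of `pt v ((1-s) p + s q)`, `0 ≤ s ≤ 1`. -/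
def DJCStmt : Prop := ∀ v : Fin 6 → E3, dt v ≠ 0 → ∀ p q p' q' : ℝ × ℝ × ℝ,
  (Dj (pt v p) (pt v q) (pt v p') (pt v q') ↔ ∀ s t : ℝ, 0 ≤ s → s ≤ 1 → 0 ≤ t → t ≤ 1 →
    (1 - s) • p + s • q ≠ (1 - t) • p' + t • q') ∧
  (Hi (pt v p) (pt v q) (pt v p') ↔ ∀ s t : ℝ, 0 ≤ s → s ≤ 1 → 0 ≤ t → t ≤ 1 →
    s • (p - q) = t • (p' - q) → s • (p - q) = 0)

/-- SM6. Proof: the ten pairs `i < j` of links (`fin_cases`), `Fin` arithmetic. -/
def SM6Stmt : Prop := (∀ v : Fin 6 → E3, Simple v ↔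
  Hi (v 0) (v 1) (v 2) ∧ Hi (v 1) (v 2) (v 3) ∧ Hi (v 2) (v 3) (v 4) ∧ Hi (v 3) (v 4) (v 5) ∧
  Dj (v 0) (v 1) (v 2) (v 3) ∧ Dj (v 0) (v 1) (v 3) (v 4) ∧ Dj (v 0) (v 1) (v 4) (v 5) ∧
  Dj (v 1) (v 2) (v 3) (v 4) ∧ Dj (v 1) (v 2) (v 4) (v 5) ∧ Dj (v 2) (v 3) (v 4) (v 5)) ∧
  (∀ (l : Fin 5 → ℝ) (v : Fin 6 → E3), v ∈ Conf l ↔
    (dist (v 0) (v 1) = l 0 ∧ dist (v 1) (v 2) = l 1 ∧ dist (v 2) (v 3) = l 2 ∧
      dist (v 3) (v 4) = l 3 ∧ dist (v 4) (v 5) = l 4) ∧ Simple v)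

/-- LOC. Local path connectedness (uses OPN of LCK). Proof: this is the first half of the proof of LPC in
`Pool/Agent/Helper32_LCK/LPC.lean` (interpolate the link vectors and normalise), copy it. -/
def LOCStmt : Prop := ∀ (n : ℕ) (l : Fin n → ℝ), (∀ k, 0 < l k) → ∀ c ∈ Conf l,
  ∀ᶠ v in 𝓝 c, v ∈ Conf l → JoinedIn (Conf l) c v

/-! ## Part 1: the chains with long ends are locked -/

/-- The ray from `v 4` through `v 5` pierces the triangle `v 1, v 2, v 3` in a point `y`, and the ray from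
`v 1` through `v 0` pierces the triangle `y, v 3, v 4`. Here `v 5 = (a,b,c)`, `y = (a/(1-c), b/(1-c), 0)`,
`v 0 = (x,y,z)`. -/
def BRay (v : Fin 6 → E3) : Prop := dt v ≠ 0 ∧ ∃ a b c x y z : ℝ,
  v 5 = pt v (a, b, c) ∧ v 0 = pt v (x, y, z) ∧
  0 < a ∧ 0 < b ∧ a + b + c < 1 ∧ 0 < y ∧ 0 < z ∧ y * a < x * b

/-- The same with the links 4 and 0 instead of the rays (`c < 0`: link 4 crosses the plane of
`v 1, v 2, v 3`; the last inequality: link 0 crosses the plane of `y, v 3, v 4`). -/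
def Beta (v : Fin 6 → E3) : Prop := dt v ≠ 0 ∧ ∃ a b c x y z : ℝ,
  v 5 = pt v (a, b, c) ∧ v 0 = pt v (x, y, z) ∧
  0 < a ∧ 0 < b ∧ a + b + c < 1 ∧ 0 < y ∧ 0 < z ∧ y * a < x * b ∧
  c < 0 ∧ b < b * (x + z) + y * (1 - c - a)

/-- the data of the closed version: `y = y₁ v 1 + y₂ v 2 + y₃ v 3` is the point of link 4 with parameter `τ`
and `w = α y + β v 3 + γ v 4` is the point of link 0 with parameter `r` -/
def CD (v : Fin 6 → E3) (y₁ y₂ y₃ α β γ τ r : ℝ) : Prop :=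
  (0 ≤ y₁ ∧ 0 ≤ y₂ ∧ 0 ≤ y₃ ∧ y₁ + y₂ + y₃ = 1) ∧ (0 ≤ α ∧ 0 ≤ β ∧ 0 ≤ γ ∧ α + β + γ = 1) ∧
  (0 ≤ τ ∧ τ ≤ 1) ∧ (0 ≤ r ∧ r ≤ 1) ∧
  y₁ • v 1 + y₂ • v 2 + y₃ • v 3 = (1 - τ) • v 4 + τ • v 5 ∧
  α • (y₁ • v 1 + y₂ • v 2 + y₃ • v 3) + β • v 3 + γ • v 4 = (1 - r) • v 1 + r • v 0

/-- the closed version -/
def BetaC (v : Fin 6 → E3) : Prop := ∃ y₁ y₂ y₃ α β γ τ r : ℝ, CD v y₁ y₂ y₃ α β γ τ r

/-- KEY. Proof: `w - v₁ = (α σ + β) (v₃ - v₁) + γ (v₄ - v₁)`; with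
`lam = σ / (σ + β (1 - σ))` the point `v₁ + lam (w - v₁)` equals `(1 - lam γ) z + lam γ v₄`
(`0 < lam ≤ 1`, `0 ≤ lam γ ≤ 1`; use `α = 1 - β - γ`). -/
def KEYStmt : Prop := ∀ (v₁ v₃ v₄ : E3) (σ α β γ : ℝ), 0 < σ → σ < 1 → 0 ≤ α → 0 ≤ β → 0 ≤ γ →
  α + β + γ = 1 → ∃ p : E3,
    p ∈ segment ℝ v₁ (α • (v₁ + σ • (v₃ - v₁)) + β • v₃ + γ • v₄) ∧
    p ∈ segment ℝ (v₁ + σ • (v₃ - v₁)) v₄

/-- BCL. Proof: `{v | BetaC v}` is the projection of a closed subset of (space of `v`) × `[0,1]^8` (all eight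
parameters are in `[0,1]`), and the projection along a compact factor is closed
(`isClosedMap_snd_of_compactSpace`), or use sequences. -/
def BCLStmt : Prop := IsClosed {v : Fin 6 → E3 | BetaC v}

/-- BOO. Proof (uses CRD): `Beta v` iff `dt v ≠ 0` and strict inequalities between the coordinates
`crd v (v 5)`, `crd v (v 0)`, which are continuous where `dt v ≠ 0`; `dt` is continuous. -/
def BOOStmt : Prop := IsOpen {v : Fin 6 → E3 | Beta v}

/-- BBC. Proof: with `σ = 1 - c > 1`: `τ = 1/σ`, `y₃ = a/σ`, `y₂ = b/σ`, `y₁ = 1 - y₂ - y₃` (positive as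
`a + b < σ`); `r = b / (b (x+z) + y (1-c-a)) < 1`, `α = r y σ / b`, `β = r (x - y a / b)`, `γ = r z`; all
positive, `α + β + γ = 1`. The two vector identities are linear in `v 1, v 2, v 3, v 4`
(insert `v 5 = pt v _`, `v 0 = pt v _`; `module` or compare coefficients). -/
def BBCStmt : Prop := ∀ v : Fin 6 → E3, Beta v → BetaC v

/-- BC1. First part of closedness (uses SM6 KEY). Let `y`, `w` be the two points of CD. `y` is in link 4
(`segment (v 4) (v 5)`), `w` in link 0. `y₃ = 0`: `y` in link 1, no (`Dj (v 1) (v 2) (v 4) (v 5)`).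
`y₁ = 0`: `y` in link 2, no. `y₂ = 0` (and `y₁, y₃ > 0`): KEY with `σ = y₃` gives a point of
`segment (v 1) w ⊆` link 0 and `segment y (v 4) ⊆` link 4, no (`Dj (v 0) (v 1) (v 4) (v 5)`).
If `v 1, v 2, v 3` were collinear, `Hi (v 1) (v 2) (v 3)` (with `v 1 ≠ v 2`, `v 2 ≠ v 3`) puts `v 2` strictly
between `v 1` and `v 3`, so `y` is in link 1 or link 2, no. -/
def BC1Stmt : Prop := ∀ (l : Fin 5 → ℝ), (∀ k, 0 < l k) → ∀ v ∈ Conf l,
  ∀ y₁ y₂ y₃ α β γ τ r : ℝ, CD v y₁ y₂ y₃ α β γ τ r →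
  0 < y₁ ∧ 0 < y₂ ∧ 0 < y₃ ∧ LinearIndependent ℝ ![v 3 - v 1, v 2 - v 1]

/-- BC2. Second part of closedness (uses SM6 KEY BC1). Suppose `dt v = 0`. By BC1 `A, B` are independent,
so `v 4 = v 1 + p A + q B` (plane). (a) `τ = 0` would give `y = v 4`, so `w = (α+γ) y + β v 3` in link 3, no
(`Dj (v 0) (v 1) (v 3) (v 4)`). So `τ > 0`, and `φ s = v 4 + s (y - v 4)` satisfies `φ 1 = y`,
`φ (1/τ) = v 5`. Barycentric coordinates `b_i(s) = (1-s) b_i(0) + s y_i` of `φ s` (`b_3(0) = p`,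
`b_2(0) = q`, `b_1(0) = 1-p-q`): positive at `s = 1`. Not all positive at `1/τ`: otherwise `v 5` is a convex
combination of `v 1, v 2, v 3` with positive coefficients and
`l 4 = |v 5 - v 4| ≤ b₁ |v 1 - v 4| + b₂ |v 2 - v 4| + b₃ |v 3 - v 4| ≤ b₁ S + b₂ (l 2 + l 3) + b₃ l 3 < S`.
(b) Let `s*` be the first `s ∈ (1, 1/τ]` where some `b_i` vanishes (minimum of finitely many zeros of affine
functions, or `sSup`): the others are `≥ 0`, `z = φ s*` is in link 4; `b_3 = 0` or `b_1 = 0` would put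
`z` in link 1 or link 2; so `b_2 = 0`, `z = v 1 + σ (v 3 - v 1)`, `σ = b_3 ∈ (0,1)`. As `y` is between `v 4`
and `z`, `w` is a convex combination of `z, v 3, v 4`; KEY gives a common point of link 0 and link 4, no. -/
def BC2Stmt : Prop := ∀ (l : Fin 5 → ℝ), (∀ k, 0 < l k) → l 1 + l 2 + l 3 ≤ l 4 → ∀ v ∈ Conf l,
  ∀ y₁ y₂ y₃ α β γ τ r : ℝ, CD v y₁ y₂ y₃ α β γ τ r → dt v ≠ 0

/-- BC3. Third part (uses SM6 CRD BC1 BC2). Now `dt v ≠ 0`, `y = (y₃, y₂, 0)` in coordinates, all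
`y_i > 0`. `τ > 0` (`y` is in the plane `z = 0`, `v 4` is not). `|y - v 4| < S ≤ l 4` (convex combination,
strict since `|v 3 - v 4| = l 3 < S`), so `τ < 1`: with `σ = 1/τ > 1`: `v 5 = v 4 + σ (y - v 4) =
(σ y₃, σ y₂, 1 - σ)`. `α > 0`: otherwise `w` in link 3. `β > 0`: otherwise `w ∈ segment y (v 4) ⊆` link 4.
`γ > 0`: otherwise `w = α y + β v 3` and the point `v 1 + κ (w - v 1)`, `κ = 1/(1 - α y₁)`, is in link 2 and
at distance `≤ max |v 2 - v 1| |v 3 - v 1| ≤ S ≤ l 0` from `v 1`, so in link 0, no. `r > 0` (`w ≠ v 1`: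
coordinate `γ > 0`), `r < 1`: `|w - v 1| ≤ α |y - v 1| + β |v 3 - v 1| + γ |v 4 - v 1| < S ≤ l 0` (strict:
`β > 0`, `|v 3 - v 1| ≤ l 1 + l 2`). `v 0 = (1/r) (α y₃ + β, α y₂, γ)`. The inequalities of `Beta` are now
elementary: `y a < x b` is `0 < β y₂`, the last one is `σ y₂ < σ y₂ / r`. -/
def BC3Stmt : Prop := ∀ (l : Fin 5 → ℝ), (∀ k, 0 < l k) → l 1 + l 2 + l 3 ≤ l 0 →
  l 1 + l 2 + l 3 ≤ l 4 → ∀ v ∈ Conf l, BetaC v → Beta v

/-- BSI. These chains are simple (uses SM6 CRD DJC). Proof in coordinates: link 4 is in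
`{(τ a, τ b, 1 - τ (1-c)), 0 ≤ τ ≤ 1}`, link 0 is `{r (x,y,z), 0 ≤ r ≤ 1}`. 0/2, 0/3: `r z > 0`, resp.
`r y > 0` for `r > 0`; for `r = 0` the origin is not in links 2, 3. 0/4: `r x = τ a`, `r y = τ b` gives
`r (x b - y a) = 0`, so `r = 0`, `τ = 0`, and `1 = 0`. 1/3: `b = 0` and `x + z = 1`. 1/4: `τ a = 0`. 2/4:
`τ (a + b) = 1`, `τ (1 - c) = 1`, no since `a + b < 1 - c`. 0/1: `r z = 0`. 1/2, 2/3 clear. 3/4: `τ b = 0`. -/
def BSIStmt : Prop := ∀ v : Fin 6 → E3, BRay v → Simple v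

/-- NEB. Existence (uses SM6 CRD BSI). Proof: for instance `v 2 = 0`, `v 3 = l 2 e₀`, `v 1 = l 1 e₁`,
`v 4 = v 3 + l 3 e₂`, `y` the centre of the triangle `v 1 v 2 v 3`, `w` the centre of `y v 3 v 4`,
`v 5 = v 4 + (l 4 / |y - v 4|) (y - v 4)`, `v 0 = v 1 + (l 0 / |w - v 1|) (w - v 1)`: this is `BRay`, so
simple. `|y - v 4| < S`, `|w - v 1| < S` (strict convex combinations) give the two last inequalities
(`1 - c = l 4 / |y - v 4| > 1`; `v 0 = (1/r)` times the coordinates of `w`, `1/r = l 0 / |w - v 1| > 1`). -/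
def NEBStmt : Prop := ∀ (l : Fin 5 → ℝ), (∀ k, 0 < l k) → l 1 + l 2 + l 3 ≤ l 0 →
  l 1 + l 2 + l 3 ≤ l 4 → ∃ v ∈ Conf l, Beta v

/-- STC. The straight chain. Proof: `v k = (l 0 + … + l (k-1)) e₀`. -/
def STCStmt : Prop := ∀ (l : Fin 5 → ℝ), (∀ k, 0 < l k) → ∃ v ∈ Conf l, dt v = 0

/-- LKH. The lock half (uses BOO BCL BBC BC3 NEB STC). Proof: if `Conf l` is preconnected, the open set
`{Beta}` and the open set `{BetaC}ᶜ` cover `Conf l` (BC3), both meet it (NEB; STC: `dt v = 0` excludes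
`Beta`, hence `BetaC` by BC3), so they meet inside `Conf l`: contradiction to BBC. -/
def LKHStmt : Prop := ∀ (l : Fin 5 → ℝ), (∀ k, 0 < l k) → l 1 + l 2 + l 3 ≤ l 0 →
  l 1 + l 2 + l 3 ≤ l 4 → ¬ IsPreconnected (Conf l)

/-! ## Part 2: the other chains are not locked -/

/-- generic chains -/
def Gen (v : Fin 6 → E3) : Prop := dt v ≠ 0 ∧
  det3 (v 3 - v 1) (v 0 - v 1) (v 4 - v 1) ≠ 0 ∧ det3 (v 3 - v 1) (v 2 - v 1) (v 0 - v 1) ≠ 0 ∧
  det3 (v 5 - v 4) (v 2 - v 1) (v 4 - v 1) ≠ 0 ∧ det3 (v 3 - v 1) (v 2 - v 1) (v 5 - v 4) ≠ 0 ∧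
  det3 (v 0 - v 1) (v 5 - v 4) (v 4 - v 1) ≠ 0 ∧ det3 (v 3 - v 2) (v 4 - v 2) (v 5 - v 4) ≠ 0

/-- GSI (uses SM6). Proof: if two non adjacent links meet, their four endpoints are coplanar: the
corresponding determinant vanishes (0/2: third, 0/3: second, 0/4: sixth, 1/3: first, 1/4: fourth, 2/4:
seventh). Adjacent links are not parallel (0/1 third, 1/2 and 2/3 first, 3/4 seventh). -/
def GSIStmt : Prop := ∀ v : Fin 6 → E3, Gen v → Simple v

/-- DE5. Polynomial certificate for generic chains (uses PAR of LCK; compare DET,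
`Pool/Agent/Helper41_LCK/DET.lean`). Proof: in terms of the unit directions `u_j = U_j / Q_j` of the links
the seven determinants are, up to sign, `l 1 l 2 l 3 det(u₁,u₂,u₃)`, `l 0 l 3 det(l 1 u₁ + l 2 u₂, u₀, u₃)`,
`l 0 l 1 l 2 det(u₂,u₁,u₀)`, `l 4 l 1 det(u₄,u₁,l 2 u₂ + l 3 u₃)`, `l 1 l 2 l 4 det(u₂,u₁,u₄)`,
`l 0 l 4 det(u₀,u₄,l 1 u₁ + l 2 u₂ + l 3 u₃)`, `l 2 l 3 l 4 det(u₂,u₃,u₄)`. `f` = product of all `Q_j` and
of these seven multiplied by suitable powers of the `Q_j`. Every factor is a nonzero polynomial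
(directions `e₀ = U(1,0,1)/2`, `e₁ = U(0,1,1)/2`, `-e₂ = U(0,0,1)`). -/
def DE5Stmt : Prop := ∀ (l : Fin 5 → ℝ), (∀ k, 0 < l k) →
  ∃ f : (Fin 6 × Fin 3 → ℝ) → ℝ, PF f ∧ (∃ a, f a ≠ 0) ∧
    ∀ a, f a ≠ 0 → (∀ j : Fin 5, Q (fun i => a (j.succ, i)) ≠ 0) ∧ Gen (V l a)

/-- GE5. Every configuration is joined to a generic one (uses PAR FPF of LCK, DE5 GSI LOC). Proof:
`v = V l a` (PAR), `{f ≠ 0}` is dense (FPF), `V l` is continuous at `a`: there are `a'` near `a` with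
`Gen (V l a')`, in `Conf l` by GSI and PAR, and joined to `v` by LOC. -/
def GE5Stmt : Prop := ∀ (l : Fin 5 → ℝ), (∀ k, 0 < l k) → ∀ v ∈ Conf l,
  ∃ v' ∈ Conf l, JoinedIn (Conf l) v v' ∧ Gen v'

/-- GE4. Four links (uses SNC DEN of LCK, GE5). Proof: append a link of length 1 (DEN, SNC), apply GE5,
forget the last vertex (continuous, SNC). -/
def GE4Stmt : Prop := ∀ (l : Fin 4 → ℝ), (∀ k, 0 < l k) → ∀ v ∈ Conf l,
  ∃ v' ∈ Conf l, JoinedIn (Conf l) v v' ∧ det3 (v' 3 - v' 1) (v' 2 - v' 1) (v' 4 - v' 1) ≠ 0 ∧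
    det3 (v' 3 - v' 1) (v' 0 - v' 1) (v' 4 - v' 1) ≠ 0 ∧
    det3 (v' 3 - v' 1) (v' 2 - v' 1) (v' 0 - v' 1) ≠ 0

/-- GE3. Three links (uses SNC DEN of LCK, GE4). Same proof. -/
def GE3Stmt : Prop := ∀ (l : Fin 3 → ℝ), (∀ k, 0 < l k) → ∀ v ∈ Conf l,
  ∃ v' ∈ Conf l, JoinedIn (Conf l) v v' ∧ det3 (v' 3 - v' 1) (v' 2 - v' 1) (v' 0 - v' 1) ≠ 0

/-- the free directions for link 0 if link 4 has the direction `(a,b,c)`: not in the cones over link 2
(`z = 0`, `x, y ≥ 0`), over link 3 (`y = 0`, `x, z ≥ 0`), and over the ray from `v 4 = (0,0,1)` -/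
def Fr (a b c : ℝ) : Set (ℝ × ℝ × ℝ) :=
  {p | ¬ (p.2.2 = 0 ∧ 0 ≤ p.1 ∧ 0 ≤ p.2.1) ∧ ¬ (p.2.1 = 0 ∧ 0 ≤ p.1 ∧ 0 ≤ p.2.2) ∧
    ¬ ∃ s t : ℝ, 0 ≤ s ∧ 0 ≤ t ∧ p = (s * a, s * b, s * c + t)}

/-- FBR. The fibre (pure inequalities, polygonal paths). Proof.
(1) `z < 0`: segment to `(0,0,-1)`, then to `(0,-1,0)`. In `Fr`: `z < 0` resp. `y < 0`; third condition:
`(x,y)` is not a nonnegative multiple of `(a,b)` except the origin, where `t ≥ 0` fails; `a ≠ 0`.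
(2) `z > 0` and (`x < 0` or `y < 0`): decrease `z` to `-1`, `(x, y)` fixed; then (1).
(3) `z > 0`, `x ≥ 0`, `y > 0` and not (`0 < a`, `0 < b`, `y a < x b`): decrease `x` to `-η`, `y, z` fixed, `η > 0`
small (if `b > 0`, `a < 0`: `η < y |a| / b`): the ray `s (a,b)` is not met; then decrease `z` to `-1` and (1).
(4) `z > 0`, `a, b > 0`, `y a < x b` and `c > 0`: first decrease `z` to a positive `z' < c y / b`, then
decrease `x` to `-1`, `y, z'` fixed: the line `s (a,b)` is met at `s = y/b` only, where the third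
condition would need `z' ≥ s c`; then decrease `z` to `-1` and (1). -/
def FBRStmt : Prop := ∀ a b c x y z : ℝ, a ≠ 0 → c ≠ 0 → y ≠ 0 → z ≠ 0 → x * b ≠ y * a →
  ¬ (0 < a ∧ 0 < b ∧ c < 0 ∧ 0 < y ∧ 0 < z ∧ y * a < x * b) →
  JoinedIn (Fr a b c) (x, y, z) (0, -1, 0)

/-- TRN. Moving link 0 along free directions (uses SM6 CRD). Proof: for `p ∈ Fr a b c` (so `p ≠ 0`) let
`X = pt v p - v 1 ≠ 0` and `F p = Function.update v 0 (v 1 + (l 0 / ‖X‖) • X)`: continuous on `Fr`, with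
values in `Conf l`: a common point of the new link 0 and link 2, 3 or 4 would be `ρ p` (coordinates) with
`0 ≤ ρ`; `ρ = 0`: `v 1` is not in links 2, 3, 4 (`v ∈ Conf l`: it is in link 1, and `Hi`); `ρ > 0`: divide by
`ρ`, `p` would be in one of the three cones. `Hi (v 0') (v 1) (v 2)`: `p` is not a positive multiple of
`(0,1,0)` (first cone). `F (x,y,z) = v` (`‖v 0 - v 1‖ = l 0`), `F (0,-1,0)` is the straight position
(`‖v 2 - v 1‖ = l 1`). -/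
def TRNStmt : Prop := ∀ (l : Fin 5 → ℝ), (∀ k, 0 < l k) → ∀ v ∈ Conf l, dt v ≠ 0 →
  ∀ a b c x y z : ℝ, v 5 - v 4 = a • (v 3 - v 1) + b • (v 2 - v 1) + c • (v 4 - v 1) →
  v 0 = pt v (x, y, z) → JoinedIn (Fr a b c) (x, y, z) (0, -1, 0) →
  JoinedIn (Conf l) v (Function.update v 0 (v 1 - (l 0 / l 1) • (v 2 - v 1)))

/-- ALP. Link 4 passes behind link 2 and can be turned away (uses SM6 CRD). Proof: for `0 ≤ t ≤ 2a` let
`D t = (a - t) A + (b + t) B + c P ≠ 0` (`c ≠ 0`), `v 5 (t) = v 4 + (l 4 / ‖D t‖) D t`. Simple: link 4 is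
in the ray `(s (a-t), s (b+t), 1 + s c)`, `s ≥ 0`. Link 1: `1 + s c = 0` and `s (a-t) = 0` give `t = a` and
`s (b + t) = (a+b)/(-c) > 1`. Link 2: `s (a+b) = 1`, `s = 1/(-c)`, no. Link 3: `s (b+t) = 0`, only `v 4`.
Link 0, points `ρ (x,y,z)`: `ρ = 0` gives `s = 0`, `1 = 0`; `ρ > 0`: `(a-t) y = (b+t) x`, but
`x (b+t) ≥ x b > y a ≥ y (a-t)` (`x > 0`). At `t = 0` it is `v` (`D 0` is a positive multiple of `v 5 - v 4`). -/
def ALPStmt : Prop := ∀ (l : Fin 5 → ℝ), (∀ k, 0 < l k) → ∀ v ∈ Conf l, dt v ≠ 0 →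
  ∀ a b c x y z : ℝ, v 5 - v 4 = a • (v 3 - v 1) + b • (v 2 - v 1) + c • (v 4 - v 1) →
  v 0 = pt v (x, y, z) → 0 < a → 0 < b → c < 0 → 0 < a + b + c → 0 < y → 0 < z → y * a < x * b →
  ∃ k : ℝ, 0 < k ∧ JoinedIn (Conf l) v (Function.update v 5 (v 4 +
    ((k * (-a)) • (v 3 - v 1) + (k * (b + 2 * a)) • (v 2 - v 1) + (k * c) • (v 4 - v 1))))

/-- BPA. Stretching the middle of a trefoil (uses SM6 CRD BSI). Proof: `v 2, v 3` fixed,
`e = (v 3 - v 2)/l 2`, `N` = normalisation; for `0 ≤ t < 1`: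
`v 1 (t) = v 2 + l 1 N((1-t) (v 1 - v 2) - t l 1 e)`, `v 4 (t) = v 3 + l 3 N((1-t) (v 4 - v 3) + t l 3 e)`;
`y(t)` has the constant barycentric coordinates `(1 - y₂ - y₃, y₂, y₃)`, `y₃ = a/(1-c)`, `y₂ = b/(1-c)`, in the
triangle `v 1 (t), v 2, v 3`; `v 5 (t) = v 4 (t) + l 4 N(y(t) - v 4 (t))`; `v 0 (t) = v 1 (t) + l 0 N(X(t))` where
`X(t)` has the constant coordinates `(x,y,z)` for the new basis. `dt` is, up to a positive factor,
`(1-t)²` times the old one (it is the determinant of `v 1 - v 2, v 3 - v 2, v 4 - v 3` up to sign), so `BRay` and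
simple (BSI). At `t = 0` it is `v`. For `t → 1` `|v 1 (t) - v 4 (t)| → l 1 + l 2 + l 3 > l 0`. -/
def BPAStmt : Prop := ∀ (l : Fin 5 → ℝ), (∀ k, 0 < l k) → l 0 < l 1 + l 2 + l 3 → ∀ v ∈ Conf l,
  BRay v → ∃ v' ∈ Conf l, JoinedIn (Conf l) v v' ∧ BRay v' ∧ l 0 < dist (v' 1) (v' 4)

/-- BET. The open trefoil (uses SM6 CRD BSI). Proof: turn link 0, `v 0 (t) = v 1 + l 0 N(X)`, through the
directions `X` with coordinates: first `(1-t) (x,y,z) + t (0,0,1)` (`BRay` for `t < 1`, simple by BSI; `t = 1`: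
link 0 is the part of length `l 0 < |v 4 - v 1|` of the segment from `v 1` to `v 4`, it misses links 2,
3, 4), then `(0,-t,1)`, then `(0,-1,1-t)` (not in the three cones of `Fr`, see TRN). -/
def BETStmt : Prop := ∀ (l : Fin 5 → ℝ), (∀ k, 0 < l k) → ∀ v ∈ Conf l, BRay v →
  l 0 < dist (v 1) (v 4) →
  JoinedIn (Conf l) v (Function.update v 0 (v 1 - (l 0 / l 1) • (v 2 - v 1)))

/-- merge the first two links -/
def mg {n : ℕ} (l : Fin (n + 2) → ℝ) : Fin (n + 1) → ℝ :=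
  Fin.cons (α := fun _ => ℝ) (l 0 + l 1) (fun k : Fin n => l k.succ.succ)

/-- MRG. Proof: `ι w = (w 0, w 0 + (l 0 / (l 0 + l 1)) (w 1 - w 0), w 1, w 2, …)` is continuous and maps
`Conf (mg l)` into `Conf l` (the first link of `w` is the union of the first two links of `ι w`, which
share exactly the new vertex), and onto the configurations of `Conf l` with a straight first joint
(`v 0 = v 1 - (l 0 / l 1) (v 2 - v 1)`; forget `v 1`). So these form a preconnected set, and every point is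
joined to it (`IsPreconnected` by `isPreconnected_of_forall_pair` or unions of paths). -/
def MRGStmt : Prop := ∀ (n : ℕ) (l : Fin (n + 2) → ℝ), (∀ k, 0 < l k) →
  (∀ v ∈ Conf l, ∃ v' ∈ Conf l, JoinedIn (Conf l) v v' ∧
    v' 0 = v' 1 - (l 0 / l 1) • (v' 2 - v' 1)) →
  IsPreconnected (Conf (mg l)) → IsPreconnected (Conf l)

/-- U2 (uses BAS of LCK, MRG). Proof: `mg l` has one link (BAS with `ap`). Straightening: if `v 0 - v 1` is
not a multiple of `v 2 - v 1`, turn link 0 through the directions `(1-t) (v 0 - v 1) - t (v 2 - v 1)`; if it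
is a multiple, it is a negative one and the joint is straight already. -/
def U2Stmt : Prop := ∀ l : Fin 2 → ℝ, (∀ k, 0 < l k) → IsPreconnected (Conf l)

/-- U3 (uses GE3 MRG U2). Proof: GE3, then the directions `(1-t) (v 0 - v 1) - t (v 2 - v 1)` for link 0: not in
the plane of `v 1, v 2, v 3` for `t < 1`, opposite to `v 2 - v 1` for `t = 1`. -/
def U3Stmt : Prop := ∀ l : Fin 3 → ℝ, (∀ k, 0 < l k) → IsPreconnected (Conf l)

/-- U4 (uses SNC FIB of LCK, SM6 CRD GE4 FBR TRN MRG U3). Proof: GE4; append a short straight link, of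
length `e` (FIB, SNC): direction `(e / l 3) (v 4 - v 3)`, coordinates `(-k, 0, k)`, `k = e / l 3 > 0`. FBR
(`a = -k < 0`), TRN, forget the last vertex; MRG and U3 (`mg l` has three links). -/
def U4Stmt : Prop := ∀ l : Fin 4 → ℝ, (∀ k, 0 < l k) → IsPreconnected (Conf l)

/-- U5 (uses CRD SM6 GE5 FBR TRN ALP BPA BET MRG U4). Proof: MRG and U4 reduce to straightening the first
joint. GE5: `v` generic, `v 5 - v 4 = (a,b,c)`, `v 0 = (x,y,z)`: `a, c, y, z, x b - y a, a + b + c ≠ 0`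
(determinants of `Gen` divided by `dt v`). If not (`0 < a`, `0 < b`, `c < 0`, `0 < y`, `0 < z`, `y a < x b`):
FBR and TRN. Otherwise, if `a + b + c > 0`: ALP, the new chain has `v 5 - v 4 = k (-a, b + 2a, c)`, again FBR
and TRN. If `a + b + c < 0`: `BRay v` (`v 5 = (a, b, c + 1)`), BPA and BET. -/
def U5Stmt : Prop := ∀ l : Fin 5 → ℝ, (∀ k, 0 < l k) → l 0 < l 1 + l 2 + l 3 →
  IsPreconnected (Conf l)

/-- FIN (uses REV of LCK, LKH U5). Proof: if `l 4 < l 1 + l 2 + l 3` reverse the chain. -/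
def FINStmt : Prop := ∀ l : Fin 5 → ℝ, (∀ k, 0 < l k) →
  (Locked l ↔ l 1 + l 2 + l 3 ≤ min (l 0) (l 4))

end Pool.Agent.LC5
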